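import Mathlib

set_option autoImplicit false

namespace Pool.Agent.Lib.MP_0aa0f2_co

/-- The window of length `n` at position `i` of the cyclic partial word `u` covers the word `w`
(`none` is the wildcard). -/
def Covers {a n N : ℕ} (u : ZMod N → Option (Fin a)) (i : ZMod N) (w : Fin n → Fin a) : Prop :=
  ∀ j : Fin n, u (i + ((j : ℕ) : ZMod N)) = none ∨ u (i + ((j : ℕ) : ZMod N)) = some (w j)

/-- `u` is a non-trivial universal partial cycle for words of length `n`. -/
def IsUpcycle {a N : ℕ} (n : ℕ) (u : ZMod N → Option (Fin a)) : Prop :=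
  (∃ i, u i = none) ∧ (∃ i c, u i = some c) ∧ ∀ w : Fin n → Fin a, ∃! i, Covers u i w

end Pool.Agent.Lib.MP_0aa0f2_co
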