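import Mathlib
import Pool.Agent.Lib.MP_0aa0f2_co.Defs
import Pool.Agent.Lib.MP_0aa0f2_co.Data

set_option autoImplicit false

namespace Pool.Agent.Lib.MP_0aa0f2_co

lemma cov_testBit (T x : ℕ) : ∀ d i, (cov T d i).testBit x = true →
    ∃ i', i ≤ i' ∧ i' < i + 2 ^ d ∧ (leaf T i').testBit x = true := by
  intro d
  induction d with
  | zero => intro i h; exact ⟨i, le_rfl, by omega, h⟩
  | succ d ih =>
    intro i h
    rw [cov, Nat.testBit_or, Bool.or_eq_true] at h
    rcases h with h | h
    · obtain ⟨i', h1, h2, h3⟩ := ih i h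
      exact ⟨i', h1, by rw [pow_succ]; omega, h3⟩
    · obtain ⟨i', h1, h2, h3⟩ := ih _ h
      exact ⟨i', by have : 0 < 2 ^ d := by positivity
                    omega, by rw [pow_succ]; omega, h3⟩

lemma leaf_testBit (T i x j : ℕ) (h : (leaf T i).testBit x = true) (hj : j < 16)
    (hp : (i + j) % 16 ≠ 0) : x.testBit j = T.testBit (i + j) := by
  have hw : (win T i).testBit j = T.testBit (i + j) := by
    unfold win
    rw [show 65536 = 2 ^ 16 by norm_num, Nat.testBit_mod_two_pow, Nat.testBit_shiftRight]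
    simp [hj]
  unfold leaf at h
  rw [Nat.testBit_or, Bool.or_eq_true, Nat.one_shiftLeft, Nat.one_shiftLeft, Nat.one_shiftLeft,
    Nat.testBit_two_pow, Nat.testBit_two_pow, decide_eq_true_eq, decide_eq_true_eq] at h
  rcases h with h | h
  · rw [← h, hw]
  · rw [← h, Nat.testBit_or, hw, Nat.testBit_two_pow]
    have : (16 - i % 16) % 16 ≠ j := by omega
    simp [this]

lemma wrap (R t : ℕ) (hR : R < 2 ^ 32768) (ht : t < 65536) :
    (R ||| (R <<< 32768)).testBit t = R.testBit (t % 32768) := by
  rw [Nat.testBit_or, Nat.testBit_shiftLeft]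
  by_cases h : t < 32768
  · have h1 : ¬ t ≥ 32768 := by omega
    rw [Nat.mod_eq_of_lt h]
    simp [h1]
  · have h1 : t ≥ 32768 := by omega
    have h2 : R.testBit t = false :=
      Nat.testBit_lt_two_pow (hR.trans_le (Nat.pow_le_pow_right (by norm_num) h1))
    have h3 : t % 32768 = t - 32768 := by omega
    rw [h2, h3]
    simp [h1]

def cyc (R : ℕ) (i : ZMod 32768) : Option (Fin 2) :=
  if i.val % 16 = 0 then none else some (if R.testBit i.val then 1 else 0)

lemma val_add (i : ZMod 32768) (j : Fin 16) :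
    (i + ((j : ℕ) : ZMod 32768)).val = (i.val + j) % 32768 := by
  rw [ZMod.val_add, ZMod.val_natCast]
  have := j.2
  omega

lemma covered (R : ℕ) (hR : R < 2 ^ 32768) (M : ℕ) (hM : M = 65536)
    (hc : cov (R ||| (R <<< 32768)) 15 0 = 2 ^ M - 1) (w : Fin 16 → Fin 2) :
    ∃ i, Covers (cyc R) i w := by
  set x := Nat.ofBits (fun j : Fin 16 => decide (w j = 1)) with hx
  have hx1 : x < M := by
    have := Nat.ofBits_lt_two_pow (fun j : Fin 16 => decide (w j = 1))
    rw [hM]; exact this
  have h1 : (cov (R ||| (R <<< 32768)) 15 0).testBit x = true := by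
    rw [hc, Nat.testBit_two_pow_sub_one]; simpa using hx1
  obtain ⟨i, -, hi, h2⟩ := cov_testBit _ _ _ _ h1
  have hi' : i < 32768 := by omega
  refine ⟨(i : ZMod 32768), fun j => ?_⟩
  have hv : ((i : ZMod 32768) + ((j : ℕ) : ZMod 32768)).val = (i + j) % 32768 := by
    rw [val_add, ZMod.val_natCast, Nat.mod_eq_of_lt hi']
  have hj := j.2
  unfold cyc
  rw [hv]
  by_cases h : (i + j) % 32768 % 16 = 0
  · left; rw [if_pos h]
  · right
    rw [if_neg h]
    have h3 := leaf_testBit _ i x j h2 hj (by omega)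
    rw [wrap R _ hR (by omega), hx, Nat.testBit_ofBits_lt _ _ hj] at h3
    rw [← h3]
    have h4 : ∀ c : Fin 2, (if decide (c = 1) = true then (1 : Fin 2) else 0) = c := by decide
    rw [h4]

lemma upcycle_of (R : ℕ) (h : ∀ w : Fin 16 → Fin 2, ∃ i, Covers (cyc R) i w) :
    IsUpcycle 16 (cyc R) := by
  refine ⟨⟨0, by simp [cyc]⟩, ⟨1, _, by
    unfold cyc
    rw [if_neg (by decide)]⟩, ?_⟩
  let p : ZMod 32768 → Fin 16 := fun i => ⟨(16 - i.val % 16) % 16, Nat.mod_lt _ (by norm_num)⟩
  let F : ZMod 32768 × Fin 2 → (Fin 16 → Fin 2) :=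
    fun q j => (cyc R (q.1 + ((j : ℕ) : ZMod 32768))).getD q.2
  have hF : ∀ i w, Covers (cyc R) i w → F (i, w (p i)) = w := by
    intro i w hc
    funext j
    rcases hc j with e | e
    · have h1 : (i + ((j : ℕ) : ZMod 32768)).val % 16 = 0 := by
        by_contra hne
        unfold cyc at e
        rw [if_neg hne] at e
        exact Option.some_ne_none _ e
      rw [val_add] at h1
      have hj := j.2
      have h2 : p i = j := Fin.ext (by simp only [p]; omega)
      simp only [F, e, h2, Option.getD_none]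
    · simp only [F, e, Option.getD_some]
  have hsurj : Function.Surjective F := fun w => by
    obtain ⟨i, hi⟩ := h w
    exact ⟨_, hF i w hi⟩
  have hinj : Function.Injective F :=
    ((Fintype.bijective_iff_surjective_and_card F).2 ⟨hsurj, by
      rw [Fintype.card_prod, ZMod.card, Fintype.card_fun, Fintype.card_fin, Fintype.card_fin]
      norm_num⟩).1
  intro w
  obtain ⟨i, hi⟩ := h w
  refine ⟨i, hi, fun i' hi' => ?_⟩
  have := hinj ((hF i' w hi').trans (hF i w hi).symm)
  exact congrArg Prod.fst this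

theorem main : IsUpcycle 16 (cyc S) :=
  upcycle_of S (covered S S_lt 65536 rfl cov_full)

end Pool.Agent.Lib.MP_0aa0f2_co
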